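import Mathlib

set_option autoImplicit false
set_option linter.all false

/-!
# Domination in uniform hypergraphs: definitions
-/

namespace Pool.Agent.Helper3K9.Dom

/-- A finite hypergraph on the vertex set `V` is given by its set `E` of edges. `E` belongs to the
class `H_k` if it has at least one edge, every edge has exactly `k` vertices, and no vertex is
isolated. -/
def InClass {V : Type} [DecidableEq V] (k : ℕ) (E : Finset (Finset V)) : Prop :=
  E.Nonempty ∧ (∀ e ∈ E, e.card = k) ∧ ∀ v : V, ∃ e ∈ E, v ∈ e

/-- Distinct vertices are adjacent if some edge contains both. -/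
def Adjacent {V : Type} (E : Finset (Finset V)) (u v : V) : Prop :=
  u ≠ v ∧ ∃ e ∈ E, u ∈ e ∧ v ∈ e

/-- `D` is dominating if every vertex outside `D` is adjacent to a vertex of `D`. -/
def Dominating {V : Type} (E : Finset (Finset V)) (D : Finset V) : Prop :=
  ∀ v, v ∉ D → ∃ u ∈ D, Adjacent E u v

/-- The domination number. -/
noncomputable def gamma {V : Type} (E : Finset (Finset V)) : ℕ :=
  sInf {d | ∃ D : Finset V, Dominating E D ∧ D.card = d}

/-- The ratios `γ(H) / (x n_H + y m_H)` for the hypergraphs `H` of the class `H_k`. -/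
def ratios (k : ℕ) (x y : ℝ) : Set ℝ :=
  {r | ∃ (n : ℕ) (E : Finset (Finset (Fin n))), InClass k E ∧
    r = (gamma E : ℝ) / (x * (n : ℝ) + y * (E.card : ℝ))}

/-- The function `z_k`. -/
noncomputable def z (k : ℕ) (x y : ℝ) : ℝ := sSup (ratios k x y)

end Pool.Agent.Helper3K9.Dom
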