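import Mathlib

set_option autoImplicit false
set_option linter.all false

/-!
# Small transversals of 3-uniform hypergraphs

Every finite family `E` of 3-element sets has a transversal `T` with `4 |T| ≤ |⋃ E| + |E|`.
-/

namespace Pool.Agent.Helper3K9.Trans3

variable {α : Type*} [DecidableEq α]

/-- the vertices covered by the family -/
def verts (E : Finset (Finset α)) : Finset α := E.biUnion id

theorem mem_verts {E : Finset (Finset α)} {x : α} : x ∈ verts E ↔ ∃ e ∈ E, x ∈ e := by
  simp [verts]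

/-- the edges that do not contain `x` -/
def del (E : Finset (Finset α)) (x : α) : Finset (Finset α) := E.filter (fun e => x ∉ e)

theorem mem_del {E : Finset (Finset α)} {x : α} {e : Finset α} : e ∈ del E x ↔ e ∈ E ∧ x ∉ e := by
  simp [del]

/-- the degree -/
def dg (E : Finset (Finset α)) (x : α) : ℕ := (E.filter (fun e => x ∈ e)).card

/-- vertices plus edges -/
def w (E : Finset (Finset α)) : ℕ := (verts E).card + E.card

/-- transversals -/
def Trans (E : Finset (Finset α)) (T : Finset α) : Prop := ∀ e ∈ E, ∃ x ∈ T, x ∈ e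

theorem card_del (E : Finset (Finset α)) (x : α) : (del E x).card + dg E x = E.card := by
  unfold del dg
  rw [add_comm]
  exact Finset.card_filter_add_card_filter_not (s := E) (fun e => x ∈ e)

theorem verts_mono {E F : Finset (Finset α)} (h : E ⊆ F) : verts E ⊆ verts F := by
  intro x hx
  rw [mem_verts] at hx ⊢
  obtain ⟨e, he, hxe⟩ := hx
  exact ⟨e, h he, hxe⟩

theorem del_subset (E : Finset (Finset α)) (x : α) : del E x ⊆ E := Finset.filter_subset _ _

theorem drop_gen {E F : Finset (Finset α)} (hF : F ⊆ E) {L : Finset α} (hL : L ⊆ verts E)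
    (hd : ∀ x ∈ L, x ∉ verts F) : (verts F).card + L.card ≤ (verts E).card := by
  rw [← Finset.card_union_of_disjoint]
  · apply Finset.card_le_card
    intro x hx
    rcases Finset.mem_union.mp hx with h | h
    · exact verts_mono hF h
    · exact hL h
  · rw [Finset.disjoint_right]
    exact fun x hx => hd x hx

theorem drop (E : Finset (Finset α)) (x : α) {L : Finset α} (hL : L ⊆ verts E)
    (hd : ∀ v ∈ L, v ∉ verts (del E x)) : w (del E x) + dg E x + L.card ≤ w E := by
  have h1 := drop_gen (del_subset E x) hL hd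
  have h2 := card_del E x
  unfold w
  omega

theorem trans_insert {E : Finset (Finset α)} {x : α} {T : Finset α} (h : Trans (del E x) T) :
    Trans E (insert x T) := by
  intro e he
  by_cases hx : x ∈ e
  · exact ⟨x, Finset.mem_insert_self _ _, hx⟩
  · obtain ⟨y, hy, hye⟩ := h e (mem_del.mpr ⟨he, hx⟩)
    exact ⟨y, Finset.mem_insert_of_mem hy, hye⟩

theorem dg_pos {E : Finset (Finset α)} {e : Finset α} {x : α} (he : e ∈ E) (hx : x ∈ e) :
    0 < dg E x := Finset.card_pos.mpr ⟨e, by simp [he, hx]⟩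

theorem dg_one {E : Finset (Finset α)} {e f : Finset α} {x : α} (h : dg E x = 1) (he : e ∈ E)
    (hx : x ∈ e) (hf : f ∈ E) (hxf : x ∈ f) : f = e := by
  unfold dg at h
  rw [Finset.card_eq_one] at h
  obtain ⟨g, hg⟩ := h
  have h1 : e ∈ E.filter (fun e => x ∈ e) := by simp [he, hx]
  have h2 : f ∈ E.filter (fun e => x ∈ e) := by simp [hf, hxf]
  rw [hg, Finset.mem_singleton] at h1 h2
  rw [h1, h2]

theorem dg_two {E : Finset (Finset α)} {e f g : Finset α} {x : α} (h : dg E x ≤ 2) (he : e ∈ E)
    (hx : x ∈ e) (hf : f ∈ E) (hxf : x ∈ f) (hef : e ≠ f) (hg : g ∈ E) (hxg : x ∈ g) :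
    g = e ∨ g = f := by
  by_contra hcon
  push Not at hcon
  have h1 : ({e, f, g} : Finset (Finset α)) ⊆ E.filter (fun e => x ∈ e) := by
    intro a ha
    simp only [Finset.mem_insert, Finset.mem_singleton] at ha
    rw [Finset.mem_filter]
    rcases ha with rfl | rfl | rfl
    · exact ⟨he, hx⟩
    · exact ⟨hf, hxf⟩
    · exact ⟨hg, hxg⟩
  have h2 := Finset.card_le_card h1
  have h3 : ({e, f, g} : Finset (Finset α)).card = 3 := by
    rw [Finset.card_eq_three]
    exact ⟨e, f, g, hef, hcon.1.symm, hcon.2.symm, rfl⟩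
  unfold dg at h
  omega

theorem dg_two_exists {E : Finset (Finset α)} {e : Finset α} {x : α} (h : dg E x = 2) (he : e ∈ E)
    (hx : x ∈ e) : ∃ f ∈ E, x ∈ f ∧ f ≠ e := by
  unfold dg at h
  have h1 : 1 < (E.filter (fun e => x ∈ e)).card := by omega
  obtain ⟨f, hf, hfe⟩ := Finset.exists_mem_ne h1 e
  rw [Finset.mem_filter] at hf
  exact ⟨f, hf.1, hf.2, hfe⟩

theorem third {e : Finset α} (h : e.card = 3) (x y : α) : ∃ a ∈ e, a ≠ x ∧ a ≠ y := by
  have h1 : 0 < ((e.erase x).erase y).card := by
    have h2 := Finset.pred_card_le_card_erase (s := e) (a := x)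
    have h3 := Finset.pred_card_le_card_erase (s := e.erase x) (a := y)
    omega
  obtain ⟨a, ha⟩ := Finset.card_pos.mp h1
  simp only [Finset.mem_erase] at ha
  exact ⟨a, ha.2.2, ha.2.1, ha.1⟩

theorem dg_del_le (E : Finset (Finset α)) (x y : α) : dg (del E y) x ≤ dg E x := by
  unfold dg
  apply Finset.card_le_card
  intro e he
  rw [Finset.mem_filter, mem_del] at he
  rw [Finset.mem_filter]
  exact ⟨he.1.1, he.2⟩

theorem dg_del_lt {E : Finset (Finset α)} {x y : α} {e : Finset α} (he : e ∈ E) (hx : x ∈ e)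
    (hy : y ∈ e) : dg (del E y) x < dg E x := by
  unfold dg
  apply Finset.card_lt_card
  rw [Finset.ssubset_iff_of_subset]
  · refine ⟨e, by simp [he, hx], ?_⟩
    rw [Finset.mem_filter, mem_del]
    exact fun h => h.1.2 hy
  · intro e he
    rw [Finset.mem_filter, mem_del] at he
    rw [Finset.mem_filter]
    exact ⟨he.1.1, he.2⟩

theorem dg_del_eq {E : Finset (Finset α)} {x y : α} (h : ∀ e ∈ E, x ∈ e → y ∉ e) :
    dg (del E y) x = dg E x := by
  unfold dg
  congr 1
  ext e
  rw [Finset.mem_filter, mem_del, Finset.mem_filter]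
  constructor
  · rintro ⟨⟨h1, _⟩, h3⟩; exact ⟨h1, h3⟩
  · rintro ⟨h1, h3⟩; exact ⟨⟨h1, h e h1 h3⟩, h3⟩

/-- 3-uniform -/
def U3 (E : Finset (Finset α)) : Prop := ∀ e ∈ E, e.card = 3

/-- maximum degree two and linear -/
def Good (E : Finset (Finset α)) : Prop :=
  (∀ x, dg E x ≤ 2) ∧ ∀ e ∈ E, ∀ f ∈ E, ∀ a b, a ∈ e → a ∈ f → b ∈ e → b ∈ f → a ≠ b → e = f

/-- some edge contains a vertex of degree one and a vertex of degree two -/
def Mixed (E : Finset (Finset α)) : Prop :=
  ∃ e ∈ E, ∃ x ∈ e, ∃ y ∈ e, dg E x = 1 ∧ dg E y = 2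

theorem U3_sub {E F : Finset (Finset α)} (h : F ⊆ E) (hE : U3 E) : U3 F := fun e he => hE e (h he)

theorem Good_del {E : Finset (Finset α)} (y : α) (hE : Good E) : Good (del E y) :=
  ⟨fun x => (dg_del_le E x y).trans (hE.1 x),
    fun e he f hf => hE.2 e (del_subset E y he) f (del_subset E y hf)⟩

/-- `P` for families of size `n` -/
def P (α : Type*) [DecidableEq α] (n : ℕ) : Prop :=
  ∀ E : Finset (Finset α), E.card = n → U3 E → ∃ T, Trans E T ∧ 4 * T.card ≤ w E

/-- `Q` for families of size `n` -/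
def Q (α : Type*) [DecidableEq α] (n : ℕ) : Prop :=
  ∀ E : Finset (Finset α), E.card = n → U3 E → Good E → Mixed E →
    ∃ T, Trans E T ∧ 4 * T.card + 1 ≤ w E

theorem card_insert_le' (x : α) (T : Finset α) : (insert x T).card ≤ T.card + 1 :=
  Finset.card_insert_le x T

theorem Q_step (n : ℕ) (IH : ∀ m < n, P α m ∧ Q α m) : Q α n := by
  intro E hn hU hG ⟨e, he, x, hx, y, hy, hdx, hdy⟩
  have hxy : x ≠ y := by rintro rfl; omega
  obtain ⟨f, hf, hyf, hfe⟩ := dg_two_exists hdy he hy
  have hxf : x ∉ f := fun h => hfe (dg_one hdx he hx hf h)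
  have hcard := card_del E y
  have hlt : (del E y).card < n := by omega
  have hxv : x ∉ verts (del E y) := by
    intro h
    obtain ⟨g, hg, hxg⟩ := mem_verts.mp h
    rw [mem_del] at hg
    have := dg_one hdx he hx hg.1 hxg
    rw [this] at hg
    exact hg.2 hy
  have hyv : y ∉ verts (del E y) := by
    intro h
    obtain ⟨g, hg, hyg⟩ := mem_verts.mp h
    exact (mem_del.mp hg).2 hyg
  have hvx : x ∈ verts E := mem_verts.mpr ⟨e, he, hx⟩
  have hvy : y ∈ verts E := mem_verts.mpr ⟨e, he, hy⟩
  have hw4 : w (del E y) + 4 ≤ w E := by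
    have := drop E y (L := {x, y}) (by
      intro v hv
      simp only [Finset.mem_insert, Finset.mem_singleton] at hv
      rcases hv with rfl | rfl <;> assumption) (by
      intro v hv
      simp only [Finset.mem_insert, Finset.mem_singleton] at hv
      rcases hv with rfl | rfl <;> assumption)
    rw [Finset.card_pair hxy, hdy] at this
    omega
  by_cases hA : Mixed (del E y)
  · obtain ⟨T, hT, hTc⟩ := (IH _ hlt).2 (del E y) rfl (U3_sub (del_subset E y) hU) (Good_del y hG) hA
    refine ⟨insert y T, trans_insert hT, ?_⟩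
    have := card_insert_le' y T
    omega
  by_cases hB : w (del E y) + 5 ≤ w E
  · obtain ⟨T, hT, hTc⟩ := (IH _ hlt).1 (del E y) rfl (U3_sub (del_subset E y) hU)
    refine ⟨insert y T, trans_insert hT, ?_⟩
    have := card_insert_le' y T
    omega
  -- every vertex of `e` or `f` other than `x, y` survives
  have hsurv : ∀ a, a ∈ verts E → a ≠ x → a ≠ y → a ∈ verts (del E y) := by
    intro a ha hax hay
    by_contra hcon
    apply hB
    have := drop E y (L := {a, x, y}) (by
      intro v hv
      simp only [Finset.mem_insert, Finset.mem_singleton] at hv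
      rcases hv with rfl | rfl | rfl <;> assumption) (by
      intro v hv
      simp only [Finset.mem_insert, Finset.mem_singleton] at hv
      rcases hv with rfl | rfl | rfl <;> assumption)
    have h3 : ({a, x, y} : Finset α).card = 3 := by
      rw [Finset.card_eq_three]
      exact ⟨a, x, y, hax, hay, hxy, rfl⟩
    rw [h3, hdy] at this
    omega
  obtain ⟨a, ha, hax, hay⟩ := third (hU e he) x y
  obtain ⟨g, hg, hag⟩ := mem_verts.mp (hsurv a (mem_verts.mpr ⟨e, he, ha⟩) hax hay)
  have hg' := mem_del.mp hg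
  have hge : g ≠ e := by rintro rfl; exact hg'.2 hy
  have hda : dg (del E y) a = 1 := by
    have h1 := dg_del_lt (E := E) (x := a) (y := y) he ha hy
    have h2 := hG.1 a
    have h3 := dg_pos hg hag
    omega
  have hgall : ∀ b ∈ g, dg (del E y) b = 1 := by
    intro b hb
    have h1 := (Good_del y hG).1 b
    have h2 := dg_pos hg hb
    have h3 : dg (del E y) b ≠ 2 := fun h => hA ⟨g, hg, a, hag, b, hb, hda, h⟩
    omega
  -- a vertex `c` of `f` in an edge `h` different from `g`
  obtain ⟨c, hcf, hcy, h, hh, hch, hhg⟩ : ∃ c ∈ f, c ≠ y ∧ ∃ h ∈ del E y, c ∈ h ∧ h ≠ g := by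
    obtain ⟨c, hc, hcy, _⟩ := third (hU f hf) y y
    obtain ⟨d, hd, hdy', hdc⟩ := third (hU f hf) y c
    have hcx : c ≠ x := by rintro rfl; exact hxf hc
    have hdx' : d ≠ x := by rintro rfl; exact hxf hd
    obtain ⟨h, hh, hch⟩ := mem_verts.mp (hsurv c (mem_verts.mpr ⟨f, hf, hc⟩) hcx hcy)
    obtain ⟨h', hh', hdh'⟩ := mem_verts.mp (hsurv d (mem_verts.mpr ⟨f, hf, hd⟩) hdx' hdy')
    by_cases h1 : h = g
    · by_cases h2 : h' = g
      · exfalso
        subst h1
        subst h2
        have := hG.2 _ (mem_del.mp hh).1 f hf c d hch hc hdh' hd hdc.symm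
        exact (mem_del.mp hh).2 (this ▸ hyf)
      · exact ⟨d, hd, hdy', h', hh', hdh', h2⟩
    · exact ⟨c, hc, hcy, h, hh, hch, h1⟩
  set E2 := ((del E y).erase g).erase h with hE2
  have hE2sub : E2 ⊆ del E y := (Finset.erase_subset _ _).trans (Finset.erase_subset _ _)
  have hE2card : E2.card + 2 = (del E y).card := by
    have h1 : h ∈ (del E y).erase g := Finset.mem_erase.mpr ⟨hhg, hh⟩
    have h2 : E2.card + 1 = ((del E y).erase g).card := Finset.card_erase_add_one h1
    have h3 : ((del E y).erase g).card + 1 = (del E y).card := Finset.card_erase_add_one hg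
    omega
  obtain ⟨T, hT, hTc⟩ := (IH E2.card (by omega)).1 E2 rfl (U3_sub (hE2sub.trans (del_subset E y)) hU)
  have hdrop : (verts E2).card + 3 ≤ (verts (del E y)).card := by
    have := drop_gen hE2sub (L := g) (fun v hv => mem_verts.mpr ⟨g, hg, hv⟩) (by
      intro v hv hcon
      obtain ⟨k, hk, hvk⟩ := mem_verts.mp hcon
      have h1 := dg_one (hgall v hv) hg hv (hE2sub hk) hvk
      rw [hE2, Finset.mem_erase, Finset.mem_erase] at hk
      exact hk.2.1 h1)
    rw [hU g hg'.1] at this
    exact this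
  refine ⟨insert a (insert c T), ?_, ?_⟩
  · intro k hk
    by_cases hyk : y ∈ k
    · rcases dg_two hdy.le he hy hf hyf hfe.symm hk hyk with rfl | rfl
      · exact ⟨a, by simp, ha⟩
      · exact ⟨c, by simp, hcf⟩
    · by_cases hkg : k = g
      · exact ⟨a, by simp, hkg ▸ hag⟩
      · by_cases hkh : k = h
        · exact ⟨c, by simp, hkh ▸ hch⟩
        · obtain ⟨v, hv, hvk⟩ := hT k (by
            rw [hE2, Finset.mem_erase, Finset.mem_erase, mem_del]
            exact ⟨hkh, hkg, hk, hyk⟩)
          exact ⟨v, by simp [hv], hvk⟩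
  · have h1 := card_insert_le' a (insert c T)
    have h2 := card_insert_le' c T
    unfold w at *
    omega

theorem P_step (n : ℕ) (IH : ∀ m < n, P α m ∧ Q α m) : P α n := by
  intro E hn hU
  by_cases h0 : ∃ x ∈ verts E, w (del E x) + 4 ≤ w E
  · obtain ⟨x, hx, hwx⟩ := h0
    obtain ⟨e, he, hxe⟩ := mem_verts.mp hx
    have h1 := card_del E x
    have h2 := dg_pos he hxe
    obtain ⟨T, hT, hTc⟩ := (IH (del E x).card (by omega)).1 (del E x) rfl
      (U3_sub (del_subset E x) hU)
    refine ⟨insert x T, trans_insert hT, ?_⟩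
    have := card_insert_le' x T
    omega
  push Not at h0
  have hself : ∀ x, x ∉ verts (del E x) := by
    intro x h
    obtain ⟨g, hg, hyg⟩ := mem_verts.mp h
    exact (mem_del.mp hg).2 hyg
  have hdeg2 : ∀ x, dg E x ≤ 2 := by
    intro x
    by_contra hcon
    have hpos : 0 < dg E x := by omega
    obtain ⟨e, he⟩ := Finset.card_pos.mp hpos
    rw [Finset.mem_filter] at he
    have hv : x ∈ verts E := mem_verts.mpr ⟨e, he.1, he.2⟩
    have := drop E x (L := {x}) (by simpa using hv) (by simpa using hself x)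
    have h2 := h0 x hv
    simp at this
    omega
  -- pairs lost together
  have hpair : ∀ x y, x ∈ verts E → dg E x = 2 → y ∈ verts E → y ≠ x → y ∈ verts (del E x) := by
    intro x y hx hdx hy hyx
    by_contra hcon
    have := drop E x (L := {y, x}) (by
      intro v hv
      simp only [Finset.mem_insert, Finset.mem_singleton] at hv
      rcases hv with rfl | rfl <;> assumption) (by
      intro v hv
      simp only [Finset.mem_insert, Finset.mem_singleton] at hv
      rcases hv with rfl | rfl
      · assumption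
      · exact hself _)
    rw [Finset.card_pair hyx, hdx] at this
    have h2 := h0 x hx
    omega
  have hone : ∀ e ∈ E, ∀ x ∈ e, dg E x ≠ 1 := by
    intro e he x hx hdx
    have hall : ∀ b ∈ e, dg E b = 1 := by
      intro b hb
      have h1 := hdeg2 b
      have h2 := dg_pos he hb
      have h3 : dg E b ≠ 2 := by
        intro h
        have hbx : x ≠ b := by rintro rfl; omega
        have h4 := hpair b x (mem_verts.mpr ⟨e, he, hb⟩) h (mem_verts.mpr ⟨e, he, hx⟩) hbx
        obtain ⟨g, hg, hxg⟩ := mem_verts.mp h4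
        rw [mem_del] at hg
        have := dg_one hdx he hx hg.1 hxg
        rw [this] at hg
        exact hg.2 hb
      omega
    have := drop E x (L := e) (fun v hv => mem_verts.mpr ⟨e, he, hv⟩) (by
      intro v hv hcon
      obtain ⟨g, hg, hvg⟩ := mem_verts.mp hcon
      rw [mem_del] at hg
      have := dg_one (hall v hv) he hv hg.1 hvg
      rw [this] at hg
      exact hg.2 hx)
    rw [hU e he, hdx] at this
    have h2 := h0 x (mem_verts.mpr ⟨e, he, hx⟩)
    omega
  have htwo : ∀ e ∈ E, ∀ x ∈ e, dg E x = 2 := by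
    intro e he x hx
    have h1 := hdeg2 x
    have h2 := dg_pos he hx
    have h3 := hone e he x hx
    omega
  have hlin : ∀ e ∈ E, ∀ f ∈ E, ∀ a b, a ∈ e → a ∈ f → b ∈ e → b ∈ f → a ≠ b → e = f := by
    intro e he f hf a b hae haf hbe hbf hab
    by_contra hef
    have h1 := hpair a b (mem_verts.mpr ⟨e, he, hae⟩) (htwo e he a hae)
      (mem_verts.mpr ⟨e, he, hbe⟩) hab.symm
    obtain ⟨g, hg, hbg⟩ := mem_verts.mp h1
    rw [mem_del] at hg
    rcases dg_two (hdeg2 b) he hbe hf hbf hef hg.1 hbg with rfl | rfl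
    · exact hg.2 hae
    · exact hg.2 haf
  have hG : Good E := ⟨hdeg2, hlin⟩
  rcases Finset.eq_empty_or_nonempty E with hE | ⟨e, he⟩
  · refine ⟨∅, ?_, by simp⟩
    intro e he
    rw [hE] at he
    simp at he
  obtain ⟨y, hy⟩ : e.Nonempty := by
    rw [← Finset.card_pos, hU e he]; norm_num
  have hdy := htwo e he y hy
  obtain ⟨f, hf, hyf, hfe⟩ := dg_two_exists hdy he hy
  obtain ⟨a, ha, hay, _⟩ := third (hU e he) y y
  obtain ⟨g, hg, hag, hge⟩ := dg_two_exists (htwo e he a ha) he ha
  have hyg : y ∉ g := fun h => hge (hlin e he g hg a y ha hag hy h hay).symm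
  have hgd : g ∈ del E y := mem_del.mpr ⟨hg, hyg⟩
  have hda : dg (del E y) a = 1 := by
    have h1 := dg_del_lt (E := E) (x := a) (y := y) he ha hy
    have h2 := hdeg2 a
    have h3 := dg_pos hgd hag
    omega
  -- a vertex `u` of `g` outside `e` and `f`
  have hgf : g ≠ f := by rintro rfl; exact hyg hyf
  obtain ⟨u, hu, hue, huf⟩ : ∃ u ∈ g, u ∉ e ∧ u ∉ f := by
    obtain ⟨u, hu, hua, _⟩ := third (hU g hg) a a
    obtain ⟨u', hu', hua', huu'⟩ := third (hU g hg) a u
    have h1 : u ∉ e := fun h => hge (hlin e he g hg a u ha hag h hu hua.symm).symm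
    have h2 : u' ∉ e := fun h => hge (hlin e he g hg a u' ha hag h hu' hua'.symm).symm
    by_cases h3 : u ∈ f
    · refine ⟨u', hu', h2, fun h4 => hgf (hlin g hg f hf u u' hu h3 hu' h4 huu'.symm)⟩
    · exact ⟨u, hu, h1, h3⟩
  have hdu : dg (del E y) u = 2 := by
    rw [dg_del_eq, htwo g hg u hu]
    intro k hk huk hyk
    rcases dg_two hdy.le he hy hf hyf hfe.symm hk hyk with rfl | rfl
    · exact hue huk
    · exact huf huk
  have hcard := card_del E y
  obtain ⟨T, hT, hTc⟩ := (IH (del E y).card (by omega)).2 (del E y) rfl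
    (U3_sub (del_subset E y) hU) (Good_del y hG) ⟨g, hgd, a, hag, u, hu, hda, hdu⟩
  refine ⟨insert y T, trans_insert hT, ?_⟩
  have h1 := card_insert_le' y T
  have h2 := drop E y (L := {y}) (by simpa using mem_verts.mpr ⟨e, he, hy⟩) (by simpa using hself y)
  simp at h2
  omega

theorem PQ (n : ℕ) : P α n ∧ Q α n := by
  induction n using Nat.strong_induction_on with
  | _ n IH => exact ⟨P_step n IH, Q_step n IH⟩

/-- **Small transversals.** Every finite family `E` of 3-element sets has a transversal `T` with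
`4 |T| ≤ |⋃ E| + |E|`. -/
theorem small_transversal (E : Finset (Finset α)) (hE : ∀ e ∈ E, e.card = 3) :
    ∃ T : Finset α, (∀ e ∈ E, ∃ x ∈ T, x ∈ e) ∧ 4 * T.card ≤ (verts E).card + E.card :=
  (PQ E.card).1 E rfl hE

end Pool.Agent.Helper3K9.Trans3
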