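import Pool.Agent.Helper3K9.Dom
import Pool.Agent.Helper3K9.Trans3

set_option autoImplicit false
set_option linter.all false

namespace Pool.Agent.Helper3K9.Z4

open Pool.Agent.Helper3K9.Dom Pool.Agent.Helper3K9.Trans3

section
variable {V : Type} [DecidableEq V] [Fintype V]

theorem gamma_le {E : Finset (Finset V)} {D : Finset V} (h : Dominating E D) : gamma E ≤ D.card :=
  Nat.sInf_le ⟨D, h, rfl⟩

theorem gamma_spec (E : Finset (Finset V)) : ∃ D : Finset V, Dominating E D ∧ D.card = gamma E := by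
  have : {d | ∃ D : Finset V, Dominating E D ∧ D.card = d}.Nonempty :=
    ⟨_, Finset.univ, fun v hv => absurd (Finset.mem_univ v) hv, rfl⟩
  exact Nat.sInf_mem this

/-- A minimal covering subfamily together with a private vertex for each of its edges. -/
theorem exists_private {E : Finset (Finset V)} (hcov : ∀ v : V, ∃ e ∈ E, v ∈ e) :
    ∃ F ⊆ E, (∀ v : V, ∃ e ∈ F, v ∈ e) ∧ ∃ p : {e // e ∈ F} → V, ∀ e, p e ∈ e.1 ∧
      ∀ f ∈ F, p e ∈ f → f = e.1 := by
  classical
  let C : Finset (Finset (Finset V)) := E.powerset.filter (fun F => ∀ v : V, ∃ e ∈ F, v ∈ e)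
  have hC : C.Nonempty := ⟨E, by simp [C, hcov]⟩
  obtain ⟨F, hF, hmin⟩ := Finset.exists_min_image C Finset.card hC
  have hF' : F ⊆ E ∧ ∀ v : V, ∃ e ∈ F, v ∈ e := by simpa [C] using hF
  refine ⟨F, hF'.1, hF'.2, ?_⟩
  have key : ∀ e : {e // e ∈ F}, ∃ v ∈ e.1, ∀ f ∈ F, v ∈ f → f = e.1 := by
    rintro ⟨e, he⟩
    by_contra hcon
    push Not at hcon
    have hcov' : ∀ v : V, ∃ g ∈ F.erase e, v ∈ g := by
      intro v
      obtain ⟨g, hg, hvg⟩ := hF'.2 v
      by_cases hge : g = e
      · subst hge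
        obtain ⟨f, hf, hvf, hfe⟩ := hcon v hvg
        exact ⟨f, Finset.mem_erase.mpr ⟨hfe, hf⟩, hvf⟩
      · exact ⟨g, Finset.mem_erase.mpr ⟨hge, hg⟩, hvg⟩
    have h1 : F.erase e ∈ C := by
      simp only [C, Finset.mem_filter, Finset.mem_powerset]
      exact ⟨(Finset.erase_subset _ _).trans hF'.1, hcov'⟩
    have h2 := hmin _ h1
    have h3 := Finset.card_erase_add_one he
    omega
  choose p hp using key
  exact ⟨p, hp⟩

/-- Removing private vertices: a family of smaller sets all of whose transversals dominate. -/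
theorem reduction {k : ℕ} {E : Finset (Finset V)} (hk : ∀ e ∈ E, e.card = k + 1)
    (hcov : ∀ v : V, ∃ e ∈ E, v ∈ e) :
    ∃ F : Finset (Finset V), (∀ e ∈ F, e.card = k) ∧ ∃ m : ℕ, F.card ≤ m ∧ m ≤ E.card ∧
      (verts F).card + m ≤ Fintype.card V ∧
      ∀ T : Finset V, (∀ e ∈ F, ∃ x ∈ T, x ∈ e) → Dominating E T := by
  classical
  obtain ⟨F, hFE, hFcov, p, hp⟩ := exists_private hcov
  let G : Finset (Finset V) := F.attach.image (fun e => e.1.erase (p e))
  refine ⟨G, ?_, F.card, ?_, Finset.card_le_card hFE, ?_, ?_⟩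
  · intro e he
    simp only [G, Finset.mem_image, Finset.mem_attach, true_and] at he
    obtain ⟨f, rfl⟩ := he
    rw [Finset.card_erase_of_mem (hp f).1, hk _ (hFE f.2)]
    rfl
  · refine Finset.card_image_le.trans ?_
    rw [Finset.card_attach]
  · have h1 : (F.attach.image p).card = F.card := by
      rw [Finset.card_image_of_injective, Finset.card_attach]
      intro e f hef
      have h2 := (hp e).2 f.1 f.2 (by rw [hef]; exact (hp f).1)
      exact Subtype.ext h2.symm
    rw [← h1, ← Finset.card_union_of_disjoint]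
    · exact Finset.card_le_univ _
    · rw [Finset.disjoint_left]
      intro v hv hv2
      simp only [Finset.mem_image, Finset.mem_attach, true_and] at hv2
      obtain ⟨e, rfl⟩ := hv2
      rw [mem_verts] at hv
      obtain ⟨g, hg, hvg⟩ := hv
      simp only [G, Finset.mem_image, Finset.mem_attach, true_and] at hg
      obtain ⟨f, rfl⟩ := hg
      rw [Finset.mem_erase] at hvg
      have h3 : f = e := Subtype.ext ((hp e).2 f.1 f.2 hvg.2)
      subst h3
      exact hvg.1 rfl
  · intro T hT v hv
    obtain ⟨e, he, hve⟩ := hFcov v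
    obtain ⟨x, hx, hxe⟩ := hT (e.erase (p ⟨e, he⟩)) (by
      simp only [G, Finset.mem_image, Finset.mem_attach, true_and]
      exact ⟨⟨e, he⟩, rfl⟩)
    have hxe' : x ∈ e := Finset.mem_of_mem_erase hxe
    exact ⟨x, hx, fun h => hv (h ▸ hx), e, hFE he, hxe', hve⟩

/-- `4 γ ≤ n` for 4-uniform hypergraphs without isolated vertices. -/
theorem gamma_four {E : Finset (Finset V)} (hk : ∀ e ∈ E, e.card = 4)
    (hcov : ∀ v : V, ∃ e ∈ E, v ∈ e) : 4 * gamma E ≤ Fintype.card V := by
  obtain ⟨F, hF, m, hm1, hm2, hm3, hT⟩ := reduction (k := 3) hk hcov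
  obtain ⟨T, hT1, hT2⟩ := small_transversal F hF
  have := gamma_le (hT T hT1)
  omega

/-- `γ ≤ m`. -/
theorem gamma_le_edges {E : Finset (Finset V)} (hne : ∀ e ∈ E, e.Nonempty)
    (hcov : ∀ v : V, ∃ e ∈ E, v ∈ e) : gamma E ≤ E.card := by
  classical
  choose f hf using fun e : {e // e ∈ E} => hne e.1 e.2
  have hD : Dominating E (E.attach.image f) := by
    intro v hv
    obtain ⟨e, he, hve⟩ := hcov v
    refine ⟨f ⟨e, he⟩, Finset.mem_image_of_mem _ (Finset.mem_attach _ _), ?_, e, he, hf ⟨e, he⟩, hve⟩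
    intro h
    exact hv (h ▸ Finset.mem_image_of_mem _ (Finset.mem_attach _ _))
  refine (gamma_le hD).trans (Finset.card_image_le.trans ?_)
  rw [Finset.card_attach]

/-- every vertex set of size `n` without isolated vertices satisfies `n ≤ k m` -/
theorem card_le_mul {k : ℕ} {E : Finset (Finset V)} (hk : ∀ e ∈ E, e.card = k)
    (hcov : ∀ v : V, ∃ e ∈ E, v ∈ e) : Fintype.card V ≤ k * E.card := by
  classical
  have h1 : (Finset.univ : Finset V) ⊆ E.biUnion id := by
    intro v _
    obtain ⟨e, he, hve⟩ := hcov v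
    exact Finset.mem_biUnion.mpr ⟨e, he, hve⟩
  have h2 := (Finset.card_le_card h1).trans Finset.card_biUnion_le
  rw [Finset.card_univ] at h2
  refine h2.trans ?_
  rw [Finset.sum_congr rfl (fun e he => by rw [id, hk e he]), Finset.sum_const, smul_eq_mul, mul_comm]

theorem gamma_pos {E : Finset (Finset V)} [Nonempty V] : 0 < gamma E := by
  obtain ⟨D, hD, hc⟩ := gamma_spec E
  rw [← hc, Finset.card_pos]
  by_contra h
  rw [Finset.not_nonempty_iff_eq_empty] at h
  obtain ⟨v⟩ := ‹Nonempty V›
  obtain ⟨u, hu, _⟩ := hD v (by rw [h]; simp)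
  rw [h] at hu
  simp at hu

end

/-- the single edge -/
theorem single_edge (k : ℕ) (hk : 0 < k) (x y : ℝ) : 1 / ((k : ℝ) * x + y) ∈ ratios k x y := by
  refine ⟨k, {Finset.univ}, ⟨⟨_, Finset.mem_singleton_self _⟩, ?_, ?_⟩, ?_⟩
  · intro e he
    rw [Finset.mem_singleton] at he
    subst he
    simp
  · intro v
    exact ⟨Finset.univ, Finset.mem_singleton_self _, Finset.mem_univ v⟩
  · have hpos : 0 < k := hk
    haveI : Nonempty (Fin k) := ⟨⟨0, hpos⟩⟩
    have h1 : gamma ({Finset.univ} : Finset (Finset (Fin k))) = 1 := by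
      apply le_antisymm
      · have := gamma_le_edges (E := ({Finset.univ} : Finset (Finset (Fin k)))) (by
          intro e he
          rw [Finset.mem_singleton] at he
          subst he
          exact Finset.univ_nonempty) (fun v => ⟨Finset.univ, Finset.mem_singleton_self _, Finset.mem_univ v⟩)
        simpa using this
      · exact gamma_pos
    rw [h1]
    simp
    ring

/-- `z_4`, as a maximum. -/
theorem z4_greatest (x y : ℝ) (hy : 0 ≤ y) (hx : -y / 4 < x) :
    IsGreatest (ratios 4 x y) (1 / (4 * x + y)) := by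
  have hs : 0 < 4 * x + y := by linarith
  refine ⟨by simpa using single_edge 4 (by norm_num) x y, ?_⟩
  rintro r ⟨n, E, ⟨hne, hk, hcov⟩, rfl⟩
  have h1 : 4 * gamma E ≤ n := by simpa using gamma_four hk hcov
  have h2 : gamma E ≤ E.card := gamma_le_edges (fun e he => by
    rw [← Finset.card_pos, hk e he]; norm_num) hcov
  have h3 : n ≤ 4 * E.card := by simpa using card_le_mul hk hcov
  have h4 : 0 < E.card := Finset.card_pos.mpr hne
  have h1' : 4 * (gamma E : ℝ) ≤ n := by exact_mod_cast h1
  have h2' : (gamma E : ℝ) ≤ E.card := by exact_mod_cast h2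
  have h3' : (n : ℝ) ≤ 4 * E.card := by exact_mod_cast h3
  have h4' : (0 : ℝ) < E.card := by exact_mod_cast h4
  have hden : 0 < x * (n : ℝ) + y * (E.card : ℝ) := by
    by_cases hx0 : 0 ≤ x
    · rcases hx0.lt_or_eq with h | h
      · have hn : 0 < n := by
          obtain ⟨e, he⟩ := hne
          by_contra hn0
          have : e.card ≤ n := by simpa using Finset.card_le_univ e
          have := hk e he
          omega
        have hn' : (0 : ℝ) < n := by exact_mod_cast hn
        have := mul_pos h hn'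
        have := mul_nonneg hy h4'.le
        linarith
      · have hy' : 0 < y := by linarith
        rw [← h]
        have := mul_pos hy' h4'
        linarith
    · have : x * (4 * (E.card : ℝ)) ≤ x * (n : ℝ) := mul_le_mul_of_nonpos_left h3' (by linarith)
      have := mul_pos hs h4'
      nlinarith
  rw [div_le_div_iff₀ hden hs]
  by_cases hx0 : 0 ≤ x
  · nlinarith [mul_le_mul_of_nonneg_left h1' hx0, mul_le_mul_of_nonneg_left h2' hy]
  · have hx0' : x ≤ 0 := by linarith
    have h5 : x * (4 * (E.card : ℝ)) ≤ x * (n : ℝ) := mul_le_mul_of_nonpos_left h3' hx0'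
    have h6 := mul_le_mul_of_nonneg_left h2' hs.le
    nlinarith

end Pool.Agent.Helper3K9.Z4
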